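import Mathlib

set_option autoImplicit false

namespace Pool.Agent.Lib.MP_cb01cb_al

open Matrix
open scoped commutatorElement

/-- A semidirect product of a 2-group by a group whose elements of order `p` act freely. -/
lemma semi_cp {N Q : Type*} [Group N] [Group Q] [Finite N] [Finite Q] (φ : Q →* MulAut N) {p : ℕ}
    (hp : p.Prime) (hp2 : p ≠ 2) (hN : IsPGroup 2 N)
    (hQ : ∀ q : Q, p ∣ orderOf q → orderOf q = p)
    (hf : ∀ q : Q, orderOf q = p → ∀ b : N, φ q b = b → b = 1) (g : N ⋊[φ] Q)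
    (hg : p ∣ orderOf g) : orderOf g = p := by
  have h1 : p ∣ orderOf g.right := by
    have h2 : g ^ orderOf g.right ∈ (SemidirectProduct.rightHom : N ⋊[φ] Q →* Q).ker := by
      rw [MonoidHom.mem_ker, map_pow, SemidirectProduct.rightHom_eq_right, pow_orderOf_eq_one]
    rw [← SemidirectProduct.range_inl_eq_ker_rightHom] at h2
    obtain ⟨b, hb⟩ := h2
    obtain ⟨j, hj⟩ := hN b
    have h3 : orderOf g ∣ orderOf g.right * 2 ^ j := by
      rw [orderOf_dvd_iff_pow_eq_one, pow_mul, ← hb, ← map_pow, hj, map_one]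
    rcases (Nat.Prime.dvd_mul hp).1 (hg.trans h3) with h | h
    · exact h
    · exact absurd ((Nat.prime_dvd_prime_iff_eq hp Nat.prime_two).1 (hp.dvd_of_dvd_pow h)) hp2
  have h2 := hQ _ h1
  have h3 : MonoidHom.FixedPointFree (φ g.right) := hf _ h2
  obtain ⟨b, hb⟩ := h3.commutatorMap_surjective g.left
  have h4 : g = SemidirectProduct.inl b * SemidirectProduct.inr g.right
      * (SemidirectProduct.inl b)⁻¹ := by
    ext
    · simp [← hb, div_eq_mul_inv]
    · simp
  have h5 : orderOf (SemidirectProduct.inr g.right : N ⋊[φ] Q) = p := by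
    rw [orderOf_injective _ SemidirectProduct.inr_injective, h2]
  rw [h4, ← MulAut.conj_apply, MulEquiv.orderOf_eq, h5]

variable {F J : Type} [Field F] [Fintype J] [DecidableEq J] (lev : J → ℕ)

/-- Matrices that raise the level strictly and vanish on level zero. -/
def Up (n : Matrix J J F) : Prop := ∀ s t, n s t ≠ 0 → 0 < lev s ∧ lev s < lev t

/-- Matrices that keep the level. -/
def Keep (n : Matrix J J F) : Prop := ∀ s t, n s t ≠ 0 → lev s = lev t

variable {lev}

omit [DecidableEq J] in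
lemma mul_ne {a b : Matrix J J F} {s t : J} (h : (a * b) s t ≠ 0) :
    ∃ u, a s u ≠ 0 ∧ b u t ≠ 0 := by
  rw [Matrix.mul_apply] at h
  obtain ⟨u, -, hu⟩ := Finset.exists_ne_zero_of_sum_ne_zero h
  exact ⟨u, mul_ne_zero_iff.1 hu⟩

omit [DecidableEq J] in
lemma Up.mul {a b : Matrix J J F} (ha : Up lev a) (hb : Up lev b) : Up lev (a * b) := by
  intro s t h
  obtain ⟨u, h1, h2⟩ := mul_ne h
  have := ha _ _ h1
  have := hb _ _ h2
  omega

omit [Fintype J] [DecidableEq J] in
lemma Up.add {a b : Matrix J J F} (ha : Up lev a) (hb : Up lev b) : Up lev (a + b) := by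
  intro s t h
  by_cases h1 : a s t = 0
  · exact hb s t (by simpa [h1] using h)
  · exact ha s t h1

omit [DecidableEq J] in
lemma Up.conj {a x y : Matrix J J F} (ha : Up lev a) (hx : Keep lev x) (hy : Keep lev y) :
    Up lev (x * a * y) := by
  intro s t h
  obtain ⟨u, h1, h2⟩ := mul_ne h
  obtain ⟨v, h3, h4⟩ := mul_ne h1
  have := hx _ _ h3
  have := ha _ _ h4
  have := hy _ _ h2
  omega

lemma Up.pow_lev {a : Matrix J J F} (ha : Up lev a) (j : ℕ) :
    ∀ s t, (a ^ j) s t ≠ 0 → lev s + j ≤ lev t := by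
  induction j with
  | zero =>
    intro s t h
    rw [pow_zero] at h
    have : s = t := by
      by_contra hne
      exact h (Matrix.one_apply_ne hne)
    simp [this]
  | succ j ih =>
    intro s t h
    rw [pow_succ] at h
    obtain ⟨u, h1, h2⟩ := mul_ne h
    have := ih _ _ h1
    have := ha _ _ h2
    omega

lemma Up.pow_two [CharP F 2] [Nonempty J] {a : Matrix J J F} (ha : Up lev a) :
    ∃ j, 0 < j ∧ (1 + a) ^ 2 ^ j = 1 := by
  obtain ⟨B, hB⟩ := (Set.finite_range lev).bddAbove
  refine ⟨B + 1, by omega, ?_⟩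
  have h1 : a ^ 2 ^ (B + 1) = 0 := by
    ext s t
    by_contra h
    have h2 := ha.pow_lev _ s t h
    have h3 := hB ⟨t, rfl⟩
    have h4 := Nat.lt_two_pow_self (n := B + 1)
    omega
  rw [add_pow_char_pow_of_commute _ _ (Commute.one_left a), one_pow, h1, add_zero]

lemma unit_pow [CharP F 2] [Nonempty J] {u : (Matrix J J F)ˣ} (hu : Up lev (u.1 - 1)) :
    ∃ j, u ^ 2 ^ j = 1 := by
  obtain ⟨j, -, hj⟩ := hu.pow_two
  refine ⟨j, Units.ext ?_⟩
  rw [add_sub_cancel] at hj
  rw [Units.val_pow_eq_pow_val, hj, Units.val_one]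

variable (lev F) in
/-- The block unitriangular monoid. -/
def upM : Submonoid (Matrix J J F)ˣ where
  carrier := {u | Up lev (u.1 - 1)}
  mul_mem' := fun {u v} hu hv => by
    have e : (u * v).1 - 1 = (u.1 - 1) * (v.1 - 1) + (u.1 - 1) + (v.1 - 1) := by
      rw [Units.val_mul]; noncomm_ring
    change Up lev _
    rw [e]
    exact ((Up.mul hu hv).add hu).add hv
  one_mem' := fun s t h => by simp at h

variable (lev F) in
/-- The block unitriangular group. -/
def upG [CharP F 2] [Nonempty J] : Subgroup (Matrix J J F)ˣ where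
  toSubmonoid := upM F lev
  inv_mem' := fun {u} hu => by
    obtain ⟨j, hj⟩ := unit_pow hu
    have e : u⁻¹ = u ^ (2 ^ j - 1) := by
      rw [inv_eq_iff_mul_eq_one, ← pow_succ', Nat.sub_add_cancel Nat.one_le_two_pow, hj]
    change u⁻¹ ∈ upM F lev
    rw [e]
    exact pow_mem hu _

lemma upG_pgroup [CharP F 2] [Nonempty J] : IsPGroup 2 (upG F lev) := fun u => by
  obtain ⟨j, hj⟩ := unit_pow u.2
  exact ⟨j, Subtype.ext hj⟩

variable (F) in
/-- A transvection as a unit. -/
def tv (a b : J) (h : a ≠ b) : (Matrix J J F)ˣ where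
  val := 1 + single a b 1
  inv := 1 - single a b 1
  val_inv := by
    have : single a b (1 : F) * single a b (1 : F) = 0 :=
      single_mul_single_of_ne _ _ _ _ h.symm _
    rw [add_mul, mul_sub, mul_sub, this]; simp
  inv_val := by
    have : single a b (1 : F) * single a b (1 : F) = 0 :=
      single_mul_single_of_ne _ _ _ _ h.symm _
    rw [sub_mul, mul_add, mul_add, this]; simp

lemma tv_mem [CharP F 2] [Nonempty J] {a b : J} (h : a ≠ b) (h0 : 0 < lev a) (h1 : lev a < lev b) :
    tv F a b h ∈ upG F lev := by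
  intro s t hst
  simp only [tv, add_sub_cancel_left, ne_eq, single_apply, ite_eq_right_iff, one_ne_zero,
    imp_false, not_not] at hst
  rw [← hst.1, ← hst.2]
  exact ⟨h0, h1⟩

lemma tv_comm {a b c : J} (h1 : a ≠ b) (h2 : b ≠ c) (h3 : a ≠ c) :
    ⁅tv F a b h1, tv F b c h2⁆ = tv F a c h3 := by
  have e : tv F a b h1 * tv F b c h2 = tv F a c h3 * tv F b c h2 * tv F a b h1 := by
    apply Units.ext
    have e1 := single_mul_single_same (1 : F) a b c (1 : F)
    have e2 : single a c (1 : F) * single b c (1 : F) = 0 :=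
      single_mul_single_of_ne _ _ _ _ h2.symm _
    have e3 : single a c (1 : F) * single a b (1 : F) = 0 :=
      single_mul_single_of_ne _ _ _ _ h3.symm _
    have e4 : single b c (1 : F) * single a b (1 : F) = 0 :=
      single_mul_single_of_ne _ _ _ _ h3.symm _
    simp only [tv, Units.val_mul, add_mul, mul_add, one_mul, mul_one, e1, e2, e3, e4, add_zero]
    abel
  rw [commutatorElement_def, e]
  group

lemma upG_class [CharP F 2] [Nonempty J] [Finite F] {c : ℕ}
    (hc : ∀ j, 1 ≤ j → j ≤ c → ∃ s, lev s = j) : c - 1 ≤ Group.nilpotencyClass (upG F lev) := by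
  have := (upG_pgroup (F := F) (lev := lev)).isNilpotent
  by_contra hcon
  obtain ⟨a, ha⟩ := hc 1 le_rfl (by omega)
  have key : ∀ j, j + 2 ≤ c → ∀ (b : J) (h : a ≠ b), lev b = j + 2 →
      tv F a b h ∈ (upG F lev).lowerCentralSeries j := by
    intro j
    induction j with
    | zero => exact fun _ b h hb => tv_mem h (by omega) (by omega)
    | succ j ih =>
      intro hj d h hd
      obtain ⟨b, hb⟩ := hc (j + 2) (by omega) (by omega)
      have h1 : a ≠ b := fun e => by rw [e] at ha; omega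
      have h2 : b ≠ d := fun e => by rw [e] at hb; omega
      rw [← tv_comm h1 h2 h, Subgroup.lowerCentralSeries_succ]
      exact Subgroup.commutator_mem_commutator (ih (by omega) b h1 hb)
        (tv_mem h2 (by omega) (by omega))
  obtain ⟨b, hb⟩ := hc c (by omega) le_rfl
  have h1 : a ≠ b := fun e => by rw [e] at ha; omega
  have h2 := key (c - 2) (by omega) b h1 (by omega)
  rw [Subgroup.lowerCentralSeries_eq_bot_of_nilpotencyClass_le (by omega), Subgroup.mem_bot] at h2
  have h3 := congrArg (fun u : (Matrix J J F)ˣ => u.1 a b) h2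
  simp [tv] at h3

theorem exists_ext [CharP F 2] [Nonempty J] [Finite F] {Q : Type} [Group Q] [Finite Q]
    (ρ : Q →* Matrix J J F) (hρ : ∀ q, Keep lev (ρ q)) {p c : ℕ} (hp : p.Prime) (hp2 : p ≠ 2)
    (hQ : ∀ q : Q, p ∣ orderOf q → orderOf q = p)
    (hf : ∀ q : Q, orderOf q = p → ∀ n, Up lev n → ρ q * n = n * ρ q → n = 0)
    (hc : ∀ j, 1 ≤ j → j ≤ c → ∃ s, lev s = j) :
    ∃ (G : Type) (_ : Group G) (_ : Finite G), (∀ g : G, p ∣ orderOf g → orderOf g = p) ∧
      ∃ (N : Subgroup G) (_ : N.Normal), IsPGroup 2 N ∧ Nonempty (G ⧸ N ≃* Q) ∧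
        c - 1 ≤ Group.nilpotencyClass N := by
  have hcon : ∀ (q : Q) (u : (Matrix J J F)ˣ), u ∈ upG F lev →
      ρ.toHomUnits q * u * (ρ.toHomUnits q)⁻¹ ∈ upG F lev := by
    intro q u hu
    have e : (ρ.toHomUnits q * u * (ρ.toHomUnits q)⁻¹).1 - 1 = ρ q * (u.1 - 1) * ρ q⁻¹ := by
      rw [← map_inv, mul_sub, sub_mul, mul_one, ← map_mul, mul_inv_cancel, map_one]
      rfl
    change Up lev _
    rw [e]
    exact Up.conj hu (hρ _) (hρ _)
  have hnorm : ∀ q : Q, ρ.toHomUnits q ∈ Subgroup.normalizer (upG F lev : Set (Matrix J J F)ˣ) := by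
    intro q
    rw [Subgroup.mem_normalizer_iff]
    refine fun u => ⟨hcon q u, fun h => ?_⟩
    have := hcon q⁻¹ _ h
    rw [map_inv] at this
    simpa [mul_assoc] using this
  let φ : Q →* MulAut (upG F lev) :=
    (upG F lev).normalizerMonoidHom.comp (ρ.toHomUnits.codRestrict _ hnorm)
  have hφ : ∀ (q : Q) (b : upG F lev),
      (φ q b).1 = ρ.toHomUnits q * b.1 * (ρ.toHomUnits q)⁻¹ := fun _ _ => rfl
  have hfin : Finite (upG F lev ⋊[φ] Q) := Finite.of_equiv _ SemidirectProduct.equivProd.symm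
  let e : upG F lev ≃* (SemidirectProduct.rightHom : upG F lev ⋊[φ] Q →* Q).ker :=
    (MonoidHom.ofInjective SemidirectProduct.inl_injective).trans
      (MulEquiv.subgroupCongr SemidirectProduct.range_inl_eq_ker_rightHom)
  have hpg := (upG_pgroup (F := F) (lev := lev)).of_equiv e
  refine ⟨upG F lev ⋊[φ] Q, inferInstance, hfin,
    semi_cp φ hp hp2 upG_pgroup hQ fun q hq b hb => ?_, _, inferInstance, hpg,
    ⟨QuotientGroup.quotientKerEquivOfSurjective _ SemidirectProduct.rightHom_surjective⟩, ?_⟩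
  · have h1 := hφ q b
    rw [hb, eq_mul_inv_iff_mul_eq] at h1
    have h2 : b.1.1 * ρ q = ρ q * b.1.1 := congrArg Units.val h1
    have h3 := hf q hq _ b.2 (by rw [mul_sub, sub_mul, h2, mul_one, one_mul])
    exact Subtype.ext (Units.ext (sub_eq_zero.1 h3))
  · have := hpg.isNilpotent
    exact (upG_class hc).trans
      (Group.nilpotencyClass_le_of_surjective e.symm.toMonoidHom e.symm.surjective)

end Pool.Agent.Lib.MP_cb01cb_al
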