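import Mathlib

set_option autoImplicit false

namespace Pool.Agent.Lib.MP_cb01cb_al

open Finset

/-- Non-adjacent signed binary digits. -/
def Naf (d : ℕ → ℤ) : Prop := (∀ i, -1 ≤ d i ∧ d i ≤ 1) ∧ ∀ i, d i = 0 ∨ d (i + 1) = 0

/-- The value of the first `k` digits. -/
def val (k : ℕ) (d : ℕ → ℤ) : ℤ := ∑ i ∈ range k, d i * 2 ^ i

lemma val_succ (k : ℕ) (d : ℕ → ℤ) : val (k + 1) d = d 0 + 2 * val k fun i => d (i + 1) := by
  unfold val
  rw [sum_range_succ', mul_sum, add_comm]
  congr 1
  · simp
  · exact sum_congr rfl fun i _ => by ring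

lemma naf_unique (k : ℕ) : ∀ d e : ℕ → ℤ, Naf d → Naf e → val k d = val k e →
    ∀ i < k, d i = e i := by
  induction k with
  | zero => intro d e _ _ _ i hi; omega
  | succ k ih =>
    intro d e hd he h
    rw [val_succ, val_succ] at h
    have h0 : d 0 = e 0 := by
      have a1 := hd.1 0
      have a2 := he.1 0
      have a3 := hd.2 0
      have a4 := he.2 0
      cases k with
      | zero => simpa [val] using h
      | succ k =>
        rw [val_succ, val_succ] at h
        simp only [zero_add] at h a3 a4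
        omega
    have h1 := ih (fun i => d (i + 1)) (fun i => e (i + 1))
      ⟨fun i => hd.1 _, fun i => hd.2 _⟩ ⟨fun i => he.1 _, fun i => he.2 _⟩ (by omega)
    intro i hi
    cases i with
    | zero => exact h0
    | succ i => exact h1 i (by omega)

lemma naf_bound {d : ℕ → ℤ} (hd : Naf d) (k : ℕ) :
    -2 ^ (k + 1) ≤ 3 * val k d ∧ 3 * val k d ≤ 2 ^ (k + 1) := by
  induction k using Nat.twoStepInduction with
  | zero => simp [val]
  | one =>
    have := hd.1 0
    simp only [val, range_one, sum_singleton, pow_zero, mul_one]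
    omega
  | more k ih1 ih2 =>
    have e1 : val (k + 2) d = val (k + 1) d + d (k + 1) * 2 ^ (k + 1) := sum_range_succ _ _
    have e2 : val (k + 1) d = val k d + d k * 2 ^ k := sum_range_succ _ _
    have e3 : (2 : ℤ) ^ (k + 2 + 1) = 4 * 2 ^ (k + 1) := by ring
    have e4 : (2 : ℤ) ^ (k + 1 + 1) = 2 * 2 ^ (k + 1) := by ring
    have e5 : (0 : ℤ) < 2 ^ (k + 1) := by positivity
    have a1 := hd.1 (k + 1)
    rcases hd.2 k with h | h
    · rw [h, zero_mul, add_zero] at e2
      rw [e1, e2, e3]
      constructor <;> nlinarith [ih1.1, ih1.2, a1.1, a1.2]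
    · rw [h, zero_mul, add_zero] at e1
      rw [e1, e3]
      rw [e4] at ih2
      constructor <;> linarith [ih2.1, ih2.2]

/-- Subsets of `range k` without two consecutive elements. -/
def naS (k : ℕ) : Finset (Finset ℕ) :=
  (range k).powerset.filter fun S => ∀ i ∈ S, i + 1 ∉ S

lemma mem_naS {k : ℕ} {S : Finset ℕ} :
    S ∈ naS k ↔ (∀ i ∈ S, i < k) ∧ ∀ i ∈ S, i + 1 ∉ S := by
  simp [naS, subset_iff]

lemma card_naS (k : ℕ) : Nat.fib (k + 2) ≤ (naS k).card := by
  induction k using Nat.twoStepInduction with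
  | zero => decide
  | one => decide
  | more k ih1 ih2 =>
    have h1 : ((naS k).image (insert (k + 1))).card = (naS k).card := by
      refine card_image_of_injOn fun S hS T hT h => ?_
      have a1 : k + 1 ∉ S := fun hh => by have := (mem_naS.1 hS).1 _ hh; omega
      have a2 : k + 1 ∉ T := fun hh => by have := (mem_naS.1 hT).1 _ hh; omega
      rw [← erase_insert a1, h, erase_insert a2]
    have h2 : Disjoint ((naS k).image (insert (k + 1))) (naS (k + 1)) := by
      rw [disjoint_left]
      intro S hS hS'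
      obtain ⟨T, -, rfl⟩ := mem_image.1 hS
      have := (mem_naS.1 hS').1 _ (mem_insert_self _ _)
      omega
    have h3 : (naS k).image (insert (k + 1)) ∪ naS (k + 1) ⊆ naS (k + 2) := by
      intro S hS
      rcases mem_union.1 hS with hS | hS
      · obtain ⟨T, hT, rfl⟩ := mem_image.1 hS
        obtain ⟨a1, a2⟩ := mem_naS.1 hT
        refine mem_naS.2 ⟨fun i hi => ?_, fun i hi hi' => ?_⟩
        · rcases mem_insert.1 hi with h | h
          · omega
          · have := a1 i h; omega
        · rcases mem_insert.1 hi with h | h <;> rcases mem_insert.1 hi' with h' | h'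
          · omega
          · have := a1 _ h'; omega
          · have := a1 _ h; omega
          · exact a2 i h h'
      · obtain ⟨a1, a2⟩ := mem_naS.1 hS
        exact mem_naS.2 ⟨fun i hi => by have := a1 i hi; omega, a2⟩
    have h4 := card_le_card h3
    rw [card_union_of_disjoint h2, h1] at h4
    rw [Nat.fib_add_two]
    have e : k + 2 + 1 = k + 1 + 2 := by ring
    rw [e]
    omega

/-- The level of a support: zero off the family, and a numbering from one on it. -/
noncomputable def levS (k : ℕ) (S : Finset ℕ) : ℕ :=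
  if h : S ∈ naS k then ((naS k).equivFin ⟨S, h⟩ : ℕ) + 1 else 0

lemma levS_pos {k : ℕ} {S : Finset ℕ} (h : 0 < levS k S) : S ∈ naS k := by
  by_contra hn
  simp [levS, hn] at h

lemma levS_surj {k j : ℕ} (h1 : 1 ≤ j) (h2 : j ≤ Nat.fib (k + 2)) :
    ∃ S ∈ naS k, levS k S = j := by
  have h3 := card_naS k
  refine ⟨((naS k).equivFin.symm ⟨j - 1, by omega⟩).1, Subtype.prop _, ?_⟩
  rw [levS, dif_pos (Subtype.prop _), Subtype.coe_eta, Equiv.apply_symm_apply]
  simp only
  omega

end Pool.Agent.Lib.MP_cb01cb_al
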