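import Pool.Agent.Lib.MP_cb01cb_al.Abs
import Pool.Agent.Lib.MP_cb01cb_al.Naf

set_option autoImplicit false

namespace Pool.Agent.Lib.MP_cb01cb_al

open Matrix Polynomial

variable {F : Type} [Field F] [CharP F 2]

/-- The trivial module plus a Frobenius twist of the natural module. -/
def blk (i : ℕ) (g : Matrix (Fin 2) (Fin 2) F) : Option (Fin 2) → Option (Fin 2) → F
  | none, none => 1
  | some x, some y => g x y ^ 2 ^ i
  | none, some _ => 0
  | some _, none => 0

lemma blk_mul (i : ℕ) (g h : Matrix (Fin 2) (Fin 2) F) (a b : Option (Fin 2)) :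
    blk i (g * h) a b = ∑ u, blk i g a u * blk i h u b := by
  rw [Fintype.sum_option]
  cases a <;> cases b <;>
    simp [blk, Matrix.mul_apply, Fin.sum_univ_two, add_pow_char_pow, mul_pow]

omit [CharP F 2] in
lemma blk_diag (i : ℕ) (w : Fin 2 → F) (a b : Option (Fin 2)) :
    blk i (diagonal w) a b = if a = b then a.elim 1 fun x => w x ^ 2 ^ i else 0 := by
  cases a <;> cases b <;> simp [blk, diagonal_apply]

omit [CharP F 2] in
lemma prod_diag {k : ℕ} (w : Fin 2 → F) (s t : Fin k → Option (Fin 2)) :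
    ∏ i : Fin k, blk i (diagonal w) (s i) (t i)
      = if s = t then ∏ i : Fin k, (s i).elim 1 fun x => w x ^ 2 ^ (i : ℕ) else 0 := by
  simp only [blk_diag]
  split_ifs with h
  · simp [h]
  · obtain ⟨i, hi⟩ := Function.ne_iff.1 h
    exact Finset.prod_eq_zero (Finset.mem_univ i) (if_neg hi)

variable (F) in
/-- The tensor product of the blocks. -/
def rho (k : ℕ) : Matrix (Fin 2) (Fin 2) F →*
    Matrix (Fin k → Option (Fin 2)) (Fin k → Option (Fin 2)) F where
  toFun g := Matrix.of fun s t => ∏ i : Fin k, blk i g (s i) (t i)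
  map_one' := by
    ext s t
    rw [Matrix.of_apply, ← diagonal_one, prod_diag, Matrix.one_apply]
    split_ifs
    · exact Finset.prod_eq_one fun i _ => by cases s i <;> simp
    · rfl
  map_mul' g h := by
    ext s t
    simp only [Matrix.of_apply, Matrix.mul_apply (M := Matrix.of _), blk_mul]
    rw [Finset.prod_univ_sum, Fintype.piFinset_univ]
    exact Finset.sum_congr rfl fun u _ => Finset.prod_mul_distrib

lemma rho_apply {k : ℕ} (g : Matrix (Fin 2) (Fin 2) F) (s t : Fin k → Option (Fin 2)) :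
    rho F k g s t = ∏ i : Fin k, blk i g (s i) (t i) := rfl

/-- The signed digit of a symbol. -/
def dg : Option (Fin 2) → ℤ
  | none => 0
  | some x => if x = 0 then 1 else -1

/-- The digit sequence of a string. -/
def dig {k : ℕ} (s : Fin k → Option (Fin 2)) (i : ℕ) : ℤ := if h : i < k then dg (s ⟨i, h⟩) else 0

/-- The support of a string. -/
def supp {k : ℕ} (s : Fin k → Option (Fin 2)) : Finset ℕ :=
  (Finset.range k).filter fun i => dig s i ≠ 0

/-- The level of a string. -/
noncomputable def lv {k : ℕ} (s : Fin k → Option (Fin 2)) : ℕ := levS k (supp s)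

lemma dg_eq_zero (a : Option (Fin 2)) : dg a = 0 ↔ a = none := by
  revert a; decide

lemma dg_bd (a : Option (Fin 2)) : -1 ≤ dg a ∧ dg a ≤ 1 := by
  revert a; decide

lemma rho_keep {k : ℕ} (g : Matrix (Fin 2) (Fin 2) F) : Keep lv (rho F k g) := by
  intro s t h
  rw [rho_apply, Finset.prod_ne_zero_iff] at h
  unfold lv supp
  congr 1
  refine Finset.filter_congr fun i hi => ?_
  have hi' := Finset.mem_range.1 hi
  have h1 := h ⟨i, hi'⟩ (Finset.mem_univ _)
  simp only [dig, dif_pos hi', ne_eq, dg_eq_zero]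
  revert h1
  cases s ⟨i, hi'⟩ <;> cases t ⟨i, hi'⟩ <;> simp [blk]

lemma naf_dig {k : ℕ} {s : Fin k → Option (Fin 2)} (h : 0 < lv s) : Naf (dig s) := by
  have h1 := (mem_naS.1 (levS_pos h)).2
  refine ⟨fun i => ?_, fun i => ?_⟩
  · unfold dig
    split_ifs
    · exact dg_bd _
    · simp
  · by_contra hc
    rw [not_or] at hc
    have a : ∀ j, dig s j ≠ 0 → j ∈ supp s := fun j hj =>
      Finset.mem_filter.2 ⟨Finset.mem_range.2 (by
        by_contra hn
        exact hj (dif_neg hn)), hj⟩
    exact h1 i (a i hc.1) (a _ hc.2)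

lemma lv_surj {k j : ℕ} (h1 : 1 ≤ j) (h2 : j ≤ Nat.fib (k + 2)) :
    ∃ s : Fin k → Option (Fin 2), lv s = j := by
  obtain ⟨S, hS, h⟩ := levS_surj h1 h2
  refine ⟨fun i => if i.1 ∈ S then some 0 else none, ?_⟩
  rw [← h, lv]
  congr 1
  ext i
  simp only [supp, Finset.mem_filter, Finset.mem_range, dig]
  constructor
  · rintro ⟨hi, h3⟩
    by_contra hn
    simp [hi, hn, dg] at h3
  · intro hi
    have := (mem_naS.1 hS).1 i hi
    simp [this, hi, dg]

omit [CharP F 2] in
lemma eig_val {k : ℕ} {a : F} (ha : a ≠ 0) (s : Fin k → Option (Fin 2)) :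
    (∏ i : Fin k, (s i).elim 1 fun x => ![a, a⁻¹] x ^ 2 ^ (i : ℕ)) = a ^ val k (dig s) := by
  have e : ∀ (n : ℕ) (f : ℕ → ℤ), a ^ (∑ i ∈ Finset.range n, f i)
      = ∏ i ∈ Finset.range n, a ^ f i := by
    intro n f
    induction n with
    | zero => simp
    | succ n ih => rw [Finset.sum_range_succ, Finset.prod_range_succ, zpow_add₀ ha, ih]
  rw [val, e, Finset.prod_range]
  refine Finset.prod_congr rfl fun i _ => ?_
  have e2 : (2 : ℤ) ^ (i : ℕ) = ((2 ^ (i : ℕ) : ℕ) : ℤ) := by push_cast; rfl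
  simp only [dig, dif_pos i.2, Fin.eta]
  rcases s i with _ | x
  · simp [dg]
  · fin_cases x
    · change a ^ 2 ^ (i : ℕ) = a ^ ((1 : ℤ) * 2 ^ (i : ℕ))
      rw [one_mul, e2, zpow_natCast]
    · change a⁻¹ ^ 2 ^ (i : ℕ) = a ^ ((-1 : ℤ) * 2 ^ (i : ℕ))
      rw [neg_one_mul, e2, _root_.zpow_neg, zpow_natCast, inv_pow]

lemma diag_free {k : ℕ} {a : F} (ha : a ≠ 0) (ho : orderOf a = 2 ^ (k + 1) - 1) (hk : 1 ≤ k)
    {n : Matrix (Fin k → Option (Fin 2)) (Fin k → Option (Fin 2)) F} (hn : Up lv n)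
    (h : rho F k (diagonal ![a, a⁻¹]) * n = n * rho F k (diagonal ![a, a⁻¹])) : n = 0 := by
  have e : rho F k (diagonal ![a, a⁻¹]) = diagonal fun s => a ^ val k (dig s) := by
    ext s t
    rw [rho_apply, prod_diag, diagonal_apply, eig_val ha]
  ext s t
  by_contra hst
  obtain ⟨h0, h1⟩ := hn s t hst
  have h2 := congrFun (congrFun h s) t
  rw [e, diagonal_mul, mul_diagonal, mul_comm] at h2
  have h3 := mul_left_cancel₀ hst h2
  have h4 : (Units.mk0 a ha) ^ val k (dig s) = (Units.mk0 a ha) ^ val k (dig t) := by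
    apply Units.ext
    simpa using h3
  rw [zpow_eq_zpow_iff_modEq, ← orderOf_units, Units.val_mk0, ho] at h4
  have a1 := naf_bound (naf_dig h0) k
  have a2 := naf_bound (naf_dig (h0.trans h1)) k
  have a3 : (4 : ℤ) ≤ 2 ^ (k + 1) := by
    calc (4 : ℤ) = 2 ^ 2 := by norm_num
      _ ≤ _ := pow_le_pow_right₀ (by norm_num) (by omega)
  have a4 : ((2 ^ (k + 1) - 1 : ℕ) : ℤ) = 2 ^ (k + 1) - 1 := by
    rw [Nat.cast_sub Nat.one_le_two_pow]; push_cast; rfl
  have h5 : val k (dig t) - val k (dig s) = 0 := by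
    refine Int.eq_zero_of_abs_lt_dvd h4.dvd ?_
    rw [a4, abs_lt]
    constructor <;> linarith [a1.1, a1.2, a2.1, a2.2]
  have h6 := naf_unique k _ _ (naf_dig h0) (naf_dig (h0.trans h1)) (by omega)
  have h7 : supp s = supp t :=
    Finset.filter_congr fun i hi => by rw [h6 i (Finset.mem_range.1 hi)]
  unfold lv at h1
  rw [h7] at h1
  exact lt_irrefl _ h1

omit [CharP F 2] in
lemma exists_eig [Fintype F] (g : Matrix (Fin 2) (Fin 2) F) (hg : g ^ Fintype.card F = g) :
    ∃ a : F, (g - a • 1).det = 0 := by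
  classical
  have h1 : (X ^ Fintype.card F - X : F[X]).Monic :=
    monic_X_pow_sub (by rw [degree_X]; exact_mod_cast Fintype.one_lt_card)
  have h2 := prod_multiset_X_sub_C_of_monic_of_roots_card_eq h1 (by
    rw [FiniteField.roots_X_pow_card_sub_X,
      FiniteField.X_pow_card_sub_X_natDegree_eq F Fintype.one_lt_card]; rfl)
  rw [FiniteField.roots_X_pow_card_sub_X] at h2
  have h3 : ∏ a : F, (X - C a) = (X ^ Fintype.card F - X : F[X]) := h2
  have h4 := congrArg (Matrix.detMonoidHom.comp (aeval g).toMonoidHom) h3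
  rw [map_prod] at h4
  have h5 : ∏ a : F, (g - a • 1).det = 0 := by
    refine Eq.trans (Finset.prod_congr rfl fun a _ => ?_) (h4.trans ?_)
    · simp [Algebra.algebraMap_eq_smul_one]
    · simp [hg]
  obtain ⟨a, -, ha⟩ := Finset.prod_eq_zero_iff.1 h5
  exact ⟨a, ha⟩

lemma exists_diag [Fintype F] (g : Matrix (Fin 2) (Fin 2) F) (hd : g.det = 1)
    (hg : g ^ Fintype.card F = g) (h2 : g * g ≠ 1) :
    ∃ (a : F) (P : Matrix (Fin 2) (Fin 2) F), a ≠ 0 ∧ a ≠ a⁻¹ ∧ P.det ≠ 0 ∧
      g * P = P * diagonal ![a, a⁻¹] := by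
  obtain ⟨a, ha⟩ := exists_eig g hg
  have two : (2 : F) = 0 := CharTwo.two_eq_zero
  rw [det_fin_two] at hd
  have e1 : a * a - (g 0 0 + g 1 1) * a + 1 = 0 := by
    rw [det_fin_two] at ha
    simp at ha
    linear_combination ha - hd
  have ha0 : a ≠ 0 := by
    rintro rfl
    simp at e1
  have e2 : g 0 0 + g 1 1 = a + a⁻¹ := by
    field_simp
    linear_combination -e1
  have hne : a ≠ a⁻¹ := by
    intro h
    apply h2
    have e3 : g 0 0 + g 1 1 = 0 := by rw [e2, ← h]; linear_combination a * two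
    ext i j
    fin_cases i <;> fin_cases j <;> simp [Matrix.mul_apply, Fin.sum_univ_two]
    · linear_combination g 0 0 * e3 - hd - two
    · linear_combination g 0 1 * e3
    · linear_combination g 1 0 * e3
    · linear_combination g 1 1 * e3 - hd - two
  have hb : (g - a⁻¹ • 1).det = 0 := by
    rw [det_fin_two]
    simp
    have e4 : a * a⁻¹ = 1 := mul_inv_cancel₀ ha0
    linear_combination hd - a⁻¹ * e2 - e4
  obtain ⟨v, hv0, hv⟩ := exists_mulVec_eq_zero_iff.2 ha
  obtain ⟨w, hw0, hw⟩ := exists_mulVec_eq_zero_iff.2 hb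
  rw [sub_mulVec, smul_mulVec, one_mulVec, sub_eq_zero] at hv hw
  have v0 := congrFun hv 0
  have v1 := congrFun hv 1
  have w0 := congrFun hw 0
  have w1 := congrFun hw 1
  simp only [mulVec, dotProduct, Fin.sum_univ_two, Pi.smul_apply, smul_eq_mul] at v0 v1 w0 w1
  refine ⟨a, !![v 0, w 0; v 1, w 1], ha0, hne, fun h => ?_, ?_⟩
  · rw [det_fin_two_of] at h
    have hs := sub_ne_zero.2 hne
    have c : ∀ i j : Fin 2, v i * w j = 0 := by
      intro i j
      apply mul_left_cancel₀ hs
      fin_cases i <;> fin_cases j <;> simp only [Fin.zero_eta, Fin.mk_one, Fin.isValue]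
      · linear_combination v 0 * w0 - w 0 * v0 - g 0 1 * h
      · linear_combination v 0 * w1 - w 0 * v1 - g 1 1 * h + a * h
      · linear_combination v 1 * w0 - w 1 * v0 + g 0 0 * h - a * h
      · linear_combination v 1 * w1 - w 1 * v1 + g 1 0 * h
    obtain ⟨i, hi⟩ := Function.ne_iff.1 hv0
    obtain ⟨j, hj⟩ := Function.ne_iff.1 hw0
    exact mul_ne_zero hi hj (c i j)
  · ext i j
    fin_cases i <;> fin_cases j <;> simp [Matrix.mul_apply, Fin.sum_univ_two]
    · linear_combination v0
    · linear_combination w0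
    · linear_combination v1
    · linear_combination w1

/-- The inclusion of the special linear group. -/
def io : SpecialLinearGroup (Fin 2) F →* Matrix (Fin 2) (Fin 2) F where
  toFun q := q.1
  map_one' := rfl
  map_mul' _ _ := rfl

omit [CharP F 2] in
lemma io_det (q : SpecialLinearGroup (Fin 2) F) : (io q).det = 1 := q.2

omit [CharP F 2] in
lemma io_inj : Function.Injective (io (F := F)) := fun _ _ h => Subtype.ext h

lemma sl_diag [Fintype F] {p : ℕ} (hp : p.Prime) (hp2 : p ≠ 2) (hc : Fintype.card F = p + 1)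
    (q : SpecialLinearGroup (Fin 2) F) (hq : orderOf q = p) :
    ∃ (a : F) (P P' : Matrix (Fin 2) (Fin 2) F), a ≠ 0 ∧ a ≠ a⁻¹ ∧ P * P' = 1 ∧ P' * P = 1 ∧
      P' * io q * P = diagonal ![a, a⁻¹] := by
  have h1 : q ^ p = 1 := by rw [← hq, pow_orderOf_eq_one]
  obtain ⟨a, P, a0, a1, hP, h⟩ := exists_diag (io q) (io_det q) (by
      rw [hc, pow_succ, ← map_pow, h1, map_one, one_mul])
    (fun h => by
      have h2 : q ^ 2 = 1 := io_inj (by rw [map_pow, pow_two, h, map_one])
      have h3 := orderOf_dvd_of_pow_eq_one h2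
      rw [hq] at h3
      exact hp2 ((Nat.prime_dvd_prime_iff_eq hp Nat.prime_two).1 h3))
  have hu : IsUnit P.det := isUnit_iff_ne_zero.2 hP
  refine ⟨a, P, P⁻¹, a0, a1, mul_nonsing_inv P hu, nonsing_inv_mul P hu, ?_⟩
  rw [Matrix.mul_assoc, h, ← Matrix.mul_assoc, nonsing_inv_mul P hu, one_mul]

lemma sl_cp [Fintype F] {p : ℕ} (hp : p.Prime) (hp2 : p ≠ 2) (hc : Fintype.card F = p + 1)
    (g : SpecialLinearGroup (Fin 2) F) (hg : p ∣ orderOf g) : orderOf g = p := by
  classical
  have h0 := orderOf_pow_orderOf_div (orderOf_pos g).ne' hg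
  obtain ⟨a, P, P', -, a1, h1, h2, h3⟩ := sl_diag hp hp2 hc _ h0
  rw [map_pow] at h3
  have hcm : P' * io g * P * diagonal ![a, a⁻¹] = diagonal ![a, a⁻¹] * (P' * io g * P) := by
    have e := (Commute.self_pow (io g) (orderOf g / p)).eq
    rw [← h3]
    calc _ = P' * io g * (P * P') * io g ^ (orderOf g / p) * P := by simp only [Matrix.mul_assoc]
      _ = P' * (io g * io g ^ (orderOf g / p)) * P := by rw [h1]; simp only [mul_one, mul_assoc]
      _ = P' * io g ^ (orderOf g / p) * (P * P') * io g * P := by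
        rw [e, h1]; simp only [mul_one, mul_assoc]
      _ = _ := by simp only [Matrix.mul_assoc]
  have hdet : (P' * io g * P).det = 1 := by
    rw [det_mul, det_mul, io_det, mul_one, ← det_mul, h2, det_one]
  have hg1 : io g = P * (P' * io g * P) * P' := by
    calc io g = (P * P') * io g * (P * P') := by rw [h1, one_mul, mul_one]
      _ = _ := by simp only [Matrix.mul_assoc]
  generalize P' * io g * P = h at hcm hdet hg1
  have hs := sub_ne_zero.2 a1
  have c01 := congrFun (congrFun hcm 0) 1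
  have c10 := congrFun (congrFun hcm 1) 0
  rw [mul_diagonal, diagonal_mul] at c01 c10
  simp only [cons_val_zero, cons_val_one] at c01 c10
  have z01 : h 0 1 = 0 := mul_left_cancel₀ hs (by linear_combination -c01)
  have z10 : h 1 0 = 0 := mul_left_cancel₀ hs (by linear_combination c10)
  rw [det_fin_two, z01, zero_mul, sub_zero] at hdet
  have hd : h = diagonal fun i => h i i := by
    ext i j
    fin_cases i <;> fin_cases j <;> simp [z01, z10]
  have hpow : h ^ p = 1 := by
    rw [hd, diagonal_pow, ← diagonal_one]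
    congr 1
    funext i
    have : h i i ≠ 0 := by
      fin_cases i
      · exact left_ne_zero_of_mul_eq_one hdet
      · exact right_ne_zero_of_mul_eq_one hdet
    have h5 := FiniteField.pow_card_sub_one_eq_one _ this
    rwa [hc, Nat.add_sub_cancel] at h5
  have h6 : ∀ n : ℕ, io g ^ n = P * h ^ n * P' := by
    intro n
    induction n with
    | zero => simp [h1]
    | succ n ih =>
      rw [pow_succ, ih, pow_succ]
      calc _ = P * h ^ n * P' * (P * h * P') := by rw [← hg1]
        _ = P * h ^ n * (P' * P) * h * P' := by simp only [Matrix.mul_assoc]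
        _ = _ := by rw [h2]; simp only [mul_one, mul_assoc]
  refine Nat.dvd_antisymm (orderOf_dvd_of_pow_eq_one (io_inj ?_)) hg
  rw [map_pow, h6, hpow, mul_one, h1, map_one]

theorem exists_group [Fintype F] {k : ℕ} (hk : 1 ≤ k) (hp : (2 ^ (k + 1) - 1).Prime)
    (hc : Fintype.card F = 2 ^ (k + 1)) :
    ∃ (G : Type) (_ : Group G) (_ : Finite G),
      (∀ g : G, 2 ^ (k + 1) - 1 ∣ orderOf g → orderOf g = 2 ^ (k + 1) - 1) ∧
      ∃ (N : Subgroup G) (_ : N.Normal), IsPGroup 2 N ∧
        Nonempty (G ⧸ N ≃* SpecialLinearGroup (Fin 2) F) ∧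
        Nat.fib (k + 2) - 1 ≤ Group.nilpotencyClass N := by
  have h0 : 0 < 2 ^ k := by positivity
  have hp2 : 2 ^ (k + 1) - 1 ≠ 2 := by rw [pow_succ]; omega
  have hc' : Fintype.card F = 2 ^ (k + 1) - 1 + 1 := by rw [hc, pow_succ]; omega
  refine exists_ext (lev := lv) ((rho F k).comp io) (fun q => rho_keep _) hp hp2
    (sl_cp hp hp2 hc') (fun q hq n hn h => ?_) fun j h1 h2 => lv_surj h1 h2
  obtain ⟨a, P, P', a0, a1, h1, h2, h3⟩ := sl_diag hp hp2 hc' q hq
  change rho F k (io q) * n = n * rho F k (io q) at h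
  have r1 : rho F k P * rho F k P' = 1 := by rw [← map_mul, h1, map_one]
  have ho : orderOf a = 2 ^ (k + 1) - 1 := by
    have := Fact.mk hp
    refine orderOf_eq_prime ?_ fun h => a1 (by rw [h, inv_one])
    have h5 := FiniteField.pow_card_sub_one_eq_one _ a0
    rwa [hc] at h5
  have h4 := diag_free a0 ho hk (hn.conj (rho_keep P') (rho_keep P)) (by
    rw [← h3, map_mul, map_mul]
    calc _ = rho F k P' * rho F k (io q) * (rho F k P * rho F k P') * n * rho F k P := by
          simp only [Matrix.mul_assoc]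
      _ = rho F k P' * (rho F k (io q) * n) * rho F k P := by
          rw [r1]; simp only [mul_one, mul_assoc]
      _ = rho F k P' * n * (rho F k P * rho F k P') * rho F k (io q) * rho F k P := by
          rw [h, r1]; simp only [mul_one, mul_assoc]
      _ = _ := by simp only [Matrix.mul_assoc])
  calc n = (rho F k P * rho F k P') * n * (rho F k P * rho F k P') := by
        rw [r1, one_mul, mul_one]
    _ = rho F k P * (rho F k P' * n * rho F k P) * rho F k P' := by
        simp only [Matrix.mul_assoc]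
    _ = 0 := by rw [h4, mul_zero, zero_mul]

end Pool.Agent.Lib.MP_cb01cb_al
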