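import Pool.Agent.Lib.MP_cb01cb_al.Abs

set_option autoImplicit false

namespace Pool.Agent.Lib.MP_cb01cb_al

open Matrix
open scoped commutatorElement

variable {F J : Type} [Field F] [Fintype J] [DecidableEq J] {lev : J → ℕ}

/-- The monoid `1 + A`. -/
def subM (A : NonUnitalSubsemiring (Matrix J J F)) : Submonoid (Matrix J J F)ˣ where
  carrier := {u | u.1 - 1 ∈ A}
  mul_mem' := fun {u v} hu hv => by
    have e : (u * v).1 - 1 = (u.1 - 1) * (v.1 - 1) + (u.1 - 1) + (v.1 - 1) := by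
      rw [Units.val_mul]; noncomm_ring
    change _ ∈ A
    rw [e]
    exact A.add_mem (A.add_mem (A.mul_mem hu hv) hu) hv
  one_mem' := by
    change _ ∈ A
    rw [Units.val_one, sub_self]
    exact A.zero_mem

/-- The group `1 + A`. -/
def subG [CharP F 2] [Nonempty J] (A : NonUnitalSubsemiring (Matrix J J F))
    (hA : ∀ n ∈ A, Up lev n) : Subgroup (Matrix J J F)ˣ where
  toSubmonoid := subM A
  inv_mem' := fun {u} hu => by
    obtain ⟨j, hj⟩ := unit_pow (hA _ hu)
    have e : u⁻¹ = u ^ (2 ^ j - 1) := by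
      rw [inv_eq_iff_mul_eq_one, ← pow_succ', Nat.sub_add_cancel Nat.one_le_two_pow, hj]
    change u⁻¹ ∈ subM A
    rw [e]
    exact pow_mem hu _

lemma subG_pgroup [CharP F 2] [Nonempty J] (A : NonUnitalSubsemiring (Matrix J J F))
    (hA : ∀ n ∈ A, Up lev n) : IsPGroup 2 (subG A hA) := fun u => by
  obtain ⟨j, hj⟩ := unit_pow (hA _ u.2)
  exact ⟨j, Subtype.ext hj⟩

variable (lev) in
/-- Matrices supported on one block. -/
def Blk (a b : ℕ) (n : Matrix J J F) : Prop := ∀ s t, n s t ≠ 0 → lev s = a ∧ lev t = b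

omit [DecidableEq J] in
lemma Blk.mul_zero {a b c d : ℕ} {x y : Matrix J J F} (hx : Blk lev a b x) (hy : Blk lev c d y)
    (h : b ≠ c) : x * y = 0 := by
  ext s t
  by_contra hst
  obtain ⟨u, h1, h2⟩ := mul_ne hst
  exact h ((hx _ _ h1).2.symm.trans (hy _ _ h2).1)

omit [DecidableEq J] in
lemma Blk.mul {a b c d : ℕ} {x y : Matrix J J F} (hx : Blk lev a b x) (hy : Blk lev c d y) :
    Blk lev a d (x * y) := by
  intro s t hst
  obtain ⟨u, h1, h2⟩ := mul_ne hst
  exact ⟨(hx _ _ h1).1, (hy _ _ h2).2⟩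

/-- The unit `1 + x` for `x * x = 0`. -/
def un (x : Matrix J J F) (h : x * x = 0) : (Matrix J J F)ˣ where
  val := 1 + x
  inv := 1 - x
  val_inv := by rw [add_mul, mul_sub, mul_sub, h]; simp
  inv_val := by rw [sub_mul, mul_add, mul_add, h]; simp

lemma un_comm {x y : Matrix J J F} (hx : x * x = 0) (hy : y * y = 0) (h : y * x = 0)
    (hxy : x * y * (x * y) = 0) : ⁅un x hx, un y hy⁆ = un (x * y) hxy := by
  have e : un x hx * un y hy = un (x * y) hxy * un y hy * un x hx := by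
    apply Units.ext
    have e1 : x * y * y = 0 := by rw [mul_assoc, hy, mul_zero]
    have e2 : x * y * x = 0 := by rw [mul_assoc, h, mul_zero]
    simp only [un, Units.val_mul, add_mul, mul_add, one_mul, mul_one, e1, e2, h, add_zero]
    abel
  rw [commutatorElement_def, e]
  group

lemma subG_class [CharP F 2] [Nonempty J] [Finite F] (A : NonUnitalSubsemiring (Matrix J J F))
    (hA : ∀ n ∈ A, Up lev n) {c : ℕ} (u : ℕ → J)
    (hc : ∀ j < c, ∃ x ∈ A, Blk lev (j + 1) (j + 2) x ∧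
      ∀ w, x (u j) w = if w = u (j + 1) then 1 else 0) :
    c ≤ Group.nilpotencyClass (subG A hA) := by
  have := (subG_pgroup A hA).isNilpotent
  by_contra hcon
  have hm : ∀ (x : Matrix J J F) (h : x * x = 0), x ∈ A → un x h ∈ subG A hA := fun x h hx => by
    change 1 + x - 1 ∈ A
    rwa [add_sub_cancel_left]
  have key : ∀ j < c, ∃ (z : Matrix J J F) (h : z * z = 0), Blk lev 1 (j + 2) z ∧
      (∀ w, z (u 0) w = if w = u (j + 1) then 1 else 0) ∧
      un z h ∈ (subG A hA).lowerCentralSeries j := by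
    intro j
    induction j with
    | zero =>
      intro h
      obtain ⟨x, h1, h2, h3⟩ := hc 0 h
      exact ⟨x, h2.mul_zero h2 (by omega), h2, h3, hm _ _ h1⟩
    | succ j ih =>
      intro h
      obtain ⟨z, hz, h4, h5, h6⟩ := ih (by omega)
      obtain ⟨x, h1, h2, h3⟩ := hc (j + 1) h
      have h7 := h4.mul h2
      refine ⟨z * x, h7.mul_zero h7 (by omega), h7, fun w => ?_, ?_⟩
      · rw [Matrix.mul_apply, ← h3 w]
        simp [h5]
      · rw [← un_comm hz (h2.mul_zero h2 (by omega)) (h2.mul_zero h4 (by omega)),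
          Subgroup.lowerCentralSeries_succ]
        exact Subgroup.commutator_mem_commutator h6 (hm _ _ h1)
  obtain ⟨z, hz, -, h5, h6⟩ := key (c - 1) (by omega)
  rw [Subgroup.lowerCentralSeries_eq_bot_of_nilpotencyClass_le (by omega), Subgroup.mem_bot] at h6
  have h3 : z = 0 := by simpa [un] using congrArg Units.val h6
  have h4 := h5 (u (c - 1 + 1))
  simp [h3] at h4

theorem exists_sub [CharP F 2] [Nonempty J] [Finite F] {Q : Type} [Group Q] [Finite Q]
    (A : NonUnitalSubsemiring (Matrix J J F)) (hA : ∀ n ∈ A, Up lev n)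
    (ρ : Q →* Matrix J J F) (hρ : ∀ q, ∀ n ∈ A, ρ q * n * ρ q⁻¹ ∈ A) {p c : ℕ} (hp : p.Prime)
    (hp2 : p ≠ 2) (hQ : ∀ q : Q, p ∣ orderOf q → orderOf q = p)
    (hf : ∀ q : Q, orderOf q = p → ∀ n ∈ A, ρ q * n = n * ρ q → n = 0)
    (hc : c ≤ Group.nilpotencyClass (subG A hA)) :
    ∃ (G : Type) (_ : Group G) (_ : Finite G), (∀ g : G, p ∣ orderOf g → orderOf g = p) ∧
      ∃ (N : Subgroup G) (_ : N.Normal), IsPGroup 2 N ∧ Nonempty (G ⧸ N ≃* Q) ∧
        c ≤ Group.nilpotencyClass N := by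
  have hcon : ∀ (q : Q) (u : (Matrix J J F)ˣ), u ∈ subG A hA →
      ρ.toHomUnits q * u * (ρ.toHomUnits q)⁻¹ ∈ subG A hA := by
    intro q u hu
    have e : (ρ.toHomUnits q * u * (ρ.toHomUnits q)⁻¹).1 - 1 = ρ q * (u.1 - 1) * ρ q⁻¹ := by
      rw [← map_inv, mul_sub, sub_mul, mul_one, ← map_mul, mul_inv_cancel, map_one]
      rfl
    change _ ∈ A
    rw [e]
    exact hρ _ _ hu
  have hnorm : ∀ q : Q, ρ.toHomUnits q ∈ Subgroup.normalizer (subG A hA : Set (Matrix J J F)ˣ) := by
    intro q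
    rw [Subgroup.mem_normalizer_iff]
    refine fun u => ⟨hcon q u, fun h => ?_⟩
    have := hcon q⁻¹ _ h
    rw [map_inv] at this
    simpa [mul_assoc] using this
  let φ : Q →* MulAut (subG A hA) :=
    (subG A hA).normalizerMonoidHom.comp (ρ.toHomUnits.codRestrict _ hnorm)
  have hφ : ∀ (q : Q) (b : subG A hA),
      (φ q b).1 = ρ.toHomUnits q * b.1 * (ρ.toHomUnits q)⁻¹ := fun _ _ => rfl
  have hfin : Finite (subG A hA ⋊[φ] Q) := Finite.of_equiv _ SemidirectProduct.equivProd.symm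
  let e : subG A hA ≃* (SemidirectProduct.rightHom : subG A hA ⋊[φ] Q →* Q).ker :=
    (MonoidHom.ofInjective SemidirectProduct.inl_injective).trans
      (MulEquiv.subgroupCongr SemidirectProduct.range_inl_eq_ker_rightHom)
  have hpg := (subG_pgroup A hA).of_equiv e
  refine ⟨subG A hA ⋊[φ] Q, inferInstance, hfin,
    semi_cp φ hp hp2 (subG_pgroup A hA) hQ fun q hq b hb => ?_, _, inferInstance, hpg,
    ⟨QuotientGroup.quotientKerEquivOfSurjective _ SemidirectProduct.rightHom_surjective⟩, ?_⟩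
  · have h1 := hφ q b
    rw [hb, eq_mul_inv_iff_mul_eq] at h1
    have h2 : b.1.1 * ρ q = ρ q * b.1.1 := congrArg Units.val h1
    have h3 := hf q hq _ b.2 (by rw [mul_sub, sub_mul, h2, mul_one, one_mul])
    exact Subtype.ext (Units.ext (sub_eq_zero.1 h3))
  · have := hpg.isNilpotent
    exact hc.trans (Group.nilpotencyClass_le_of_surjective e.symm.toMonoidHom e.symm.surjective)

end Pool.Agent.Lib.MP_cb01cb_al
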