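import Pool.Agent.Lib.MP_cb01cb_al.Rep
import Pool.Agent.Lib.MP_cb01cb_al.Sub

set_option autoImplicit false

namespace Pool.Agent.Lib.MP_cb01cb_al

open Matrix

variable {F : Type} [Field F] {k : ℕ}

/-- `u` and `v` agree up to a position where `u` is trivial and `v` is not. -/
def Br (u v : Fin k → Option (Fin 2)) : Prop :=
  ∃ s, (∀ i < s, u i = v i) ∧ u s = none ∧ v s ≠ none

lemma Br.trans {u v w : Fin k → Option (Fin 2)} (h1 : Br u v) (h2 : Br v w) : Br u w := by
  obtain ⟨s, a1, a2, a3⟩ := h1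
  obtain ⟨t, b1, b2, b3⟩ := h2
  rcases lt_trichotomy s t with h | h | h
  · exact ⟨s, fun i hi => (a1 i hi).trans (b1 i (hi.trans h)), a2, b1 s h ▸ a3⟩
  · exact absurd (h ▸ b2) a3
  · exact ⟨t, fun i hi => (a1 i (hi.trans h)).trans (b1 i hi), (a1 t h).trans b2, b3⟩

/-- The lexicographic numbering of the supports. -/
noncomputable def lexE (k : ℕ) : Fin (2 ^ k) ≃o Lex (Fin k → Bool) :=
  monoEquivOfFin _ (by rw [Fintype.card_lex]; simp)

/-- The level of a string. -/
noncomputable def lw (u : Fin k → Option (Fin 2)) : ℕ :=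
  ((lexE k).symm (toLex fun i => (u i).isSome)).1 + 1

lemma Br.lt {u v : Fin k → Option (Fin 2)} (h : Br u v) : lw u < lw v := by
  obtain ⟨s, a1, a2, a3⟩ := h
  have h1 : (toLex fun i => (u i).isSome) < toLex fun i => (v i).isSome :=
    ⟨s, fun i hi => congrArg Option.isSome (a1 i hi), by
      change (u s).isSome < (v s).isSome
      rw [a2, Option.isSome_iff_ne_none.2 a3]
      decide⟩
  exact Nat.succ_lt_succ ((lexE k).symm.strictMono h1)

lemma val_bd {d : ℕ → ℤ} (hd : ∀ i, -1 ≤ d i ∧ d i ≤ 1) (k : ℕ) :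
    1 - 2 ^ k ≤ val k d ∧ val k d ≤ 2 ^ k - 1 := by
  induction k with
  | zero => simp [val]
  | succ k ih =>
    have e : val (k + 1) d = val k d + d k * 2 ^ k := Finset.sum_range_succ _ _
    have e5 : (0 : ℤ) < 2 ^ k := by positivity
    rw [e, pow_succ]
    constructor <;> nlinarith [ih.1, ih.2, (hd k).1, (hd k).2]

lemma val_ne (s : ℕ) : ∀ (k : ℕ) (d e : ℕ → ℤ), s < k → (∀ i < s, d i = e i) → d s = 0 →
    (e s = 1 ∨ e s = -1) → val k d ≠ val k e := by
  induction s with
  | zero =>
    intro k d e hk _ h1 h2 h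
    obtain ⟨k, rfl⟩ : ∃ j, k = j + 1 := ⟨k - 1, by omega⟩
    rw [val_succ, val_succ] at h
    omega
  | succ s ih =>
    intro k d e hk h0 h1 h2 h
    obtain ⟨k, rfl⟩ : ∃ j, k = j + 1 := ⟨k - 1, by omega⟩
    rw [val_succ, val_succ, h0 0 (by omega)] at h
    exact ih k (fun i => d (i + 1)) (fun i => e (i + 1)) (by omega)
      (fun i hi => h0 _ (by omega)) h1 h2 (by omega)

lemma dig_bd (u : Fin k → Option (Fin 2)) (i : ℕ) : -1 ≤ dig u i ∧ dig u i ≤ 1 := by
  unfold dig
  split_ifs
  · exact dg_bd _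
  · simp

lemma Br.val_ne {u v : Fin k → Option (Fin 2)} (h : Br u v) : val k (dig u) ≠ val k (dig v) := by
  obtain ⟨s, a1, a2, a3⟩ := h
  refine Pool.Agent.Lib.MP_cb01cb_al.val_ne s.1 k _ _ s.2 (fun i hi => ?_) ?_ ?_
  · have hi' : i < k := hi.trans s.2
    simp only [dig, dif_pos hi', a1 ⟨i, hi'⟩ hi]
  · simp only [dig, dif_pos s.2, Fin.eta, a2, dg]
  · simp only [dig, dif_pos s.2, Fin.eta]
    revert a3
    generalize v s = a
    revert a
    decide

variable [CharP F 2]

lemma diag_free' {a : F} (ha : a ≠ 0) (ho : orderOf a = 2 ^ (k + 1) - 1)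
    {n : Matrix (Fin k → Option (Fin 2)) (Fin k → Option (Fin 2)) F}
    (hn : ∀ s t, n s t ≠ 0 → Br s t)
    (h : rho F k (diagonal ![a, a⁻¹]) * n = n * rho F k (diagonal ![a, a⁻¹])) : n = 0 := by
  have e : rho F k (diagonal ![a, a⁻¹]) = diagonal fun s => a ^ val k (dig s) := by
    ext s t
    rw [rho_apply, prod_diag, diagonal_apply, eig_val ha]
  ext s t
  by_contra hst
  have h2 := congrFun (congrFun h s) t
  rw [e, diagonal_mul, mul_diagonal, mul_comm] at h2
  have h3 := mul_left_cancel₀ hst h2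
  have h4 : (Units.mk0 a ha) ^ val k (dig s) = (Units.mk0 a ha) ^ val k (dig t) := by
    apply Units.ext
    simpa using h3
  rw [zpow_eq_zpow_iff_modEq, ← orderOf_units, Units.val_mk0, ho] at h4
  have a1 := val_bd (dig_bd s) k
  have a2 := val_bd (dig_bd t) k
  have a4 : ((2 ^ (k + 1) - 1 : ℕ) : ℤ) = 2 * 2 ^ k - 1 := by
    rw [Nat.cast_sub Nat.one_le_two_pow]; push_cast; ring
  have h5 : val k (dig t) - val k (dig s) = 0 := by
    refine Int.eq_zero_of_abs_lt_dvd h4.dvd ?_
    rw [a4, abs_lt]
    constructor <;> linarith [a1.1, a1.2, a2.1, a2.2]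
  exact (hn s t hst).val_ne (by omega)

variable (F k) in
/-- The matrices all of whose conjugates are supported on branching pairs. -/
def tree : NonUnitalSubsemiring (Matrix (Fin k → Option (Fin 2)) (Fin k → Option (Fin 2)) F) where
  carrier := {n | ∀ P P' : Matrix (Fin 2) (Fin 2) F, P * P' = 1 → P' * P = 1 →
    ∀ s t, (rho F k P * n * rho F k P') s t ≠ 0 → Br s t}
  zero_mem' := fun P P' _ _ s t h => by simp at h
  add_mem' := fun {a b} ha hb P P' h1 h2 s t h => by
    rw [mul_add, add_mul, Matrix.add_apply] at h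
    by_cases h3 : (rho F k P * a * rho F k P') s t = 0
    · exact hb P P' h1 h2 s t (by rwa [h3, zero_add] at h)
    · exact ha P P' h1 h2 s t h3
  mul_mem' := fun {a b} ha hb P P' h1 h2 s t h => by
    have e : rho F k P * (a * b) * rho F k P'
        = rho F k P * a * rho F k P' * (rho F k P * b * rho F k P') := by
      calc _ = rho F k P * a * rho F k (P' * P) * b * rho F k P' := by
            rw [h2, map_one]; simp only [mul_one, mul_assoc]
        _ = _ := by rw [map_mul]; simp only [mul_assoc]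
    rw [e] at h
    obtain ⟨u, h3, h4⟩ := mul_ne h
    exact (ha P P' h1 h2 _ _ h3).trans (hb P P' h1 h2 _ _ h4)

lemma tree_br {n : Matrix (Fin k → Option (Fin 2)) (Fin k → Option (Fin 2)) F}
    (hn : n ∈ tree F k) : ∀ s t, n s t ≠ 0 → Br s t := fun s t h =>
  hn 1 1 (one_mul _) (one_mul _) s t (by rwa [map_one, one_mul, mul_one])

lemma tree_up : ∀ n ∈ tree F k, Up lw n := fun _ hn s t h =>
  ⟨Nat.succ_pos _, (tree_br hn s t h).lt⟩

lemma tree_conj {n : Matrix (Fin k → Option (Fin 2)) (Fin k → Option (Fin 2)) F}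
    (hn : n ∈ tree F k) {P P' : Matrix (Fin 2) (Fin 2) F} (h1 : P * P' = 1) (h2 : P' * P = 1) :
    rho F k P * n * rho F k P' ∈ tree F k := fun R R' h3 h4 s t h =>
  hn (R * P) (P' * R') (by rw [mul_assoc, ← mul_assoc P, h1, one_mul, h3])
    (by rw [mul_assoc, ← mul_assoc R', h4, one_mul, h2]) s t
    (by rw [map_mul, map_mul]; simpa only [mul_assoc] using h)

/-- A pure tensor. -/
def ten (n : Fin k → Matrix (Option (Fin 2)) (Option (Fin 2)) F) :
    Matrix (Fin k → Option (Fin 2)) (Fin k → Option (Fin 2)) F :=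
  Matrix.of fun s t => ∏ i, n i (s i) (t i)

omit [CharP F 2] in
lemma ten_mul (n n' : Fin k → Matrix (Option (Fin 2)) (Option (Fin 2)) F) :
    ten n * ten n' = ten fun i => n i * n' i := by
  ext s t
  simp only [ten, Matrix.of_apply, Matrix.mul_apply]
  rw [Finset.prod_univ_sum, Fintype.piFinset_univ]
  exact Finset.sum_congr rfl fun u _ => Finset.prod_mul_distrib.symm

/-- The base symbol. -/
def bs (b : Bool) : Option (Fin 2) := if b then some 0 else none

/-- The projection on a summand. -/
def pj (b : Bool) : Matrix (Option (Fin 2)) (Option (Fin 2)) F :=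
  diagonal fun a => if a.isSome = b then 1 else 0

lemma pj_conj (i : ℕ) (b : Bool) {P P' : Matrix (Fin 2) (Fin 2) F} (h : P * P' = 1) :
    Matrix.of (blk i P) * pj b * Matrix.of (blk i P') = pj b := by
  have e : Matrix.of (blk i P) * pj b = pj b * Matrix.of (blk i P) := by
    ext x y
    rw [pj, mul_diagonal, diagonal_mul]
    cases x <;> cases y <;> simp [blk]
  have e2 : Matrix.of (blk i P) * Matrix.of (blk i P') = 1 := by
    ext x y
    rw [Matrix.mul_apply]
    simp only [Matrix.of_apply]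
    rw [← blk_mul, h, ← diagonal_one, blk_diag, Matrix.one_apply]
    cases x <;> simp
  rw [e, mul_assoc, e2, mul_one]

lemma tree_chain {b b' : Fin k → Bool} (h : toLex b < toLex b') :
    ∃ x ∈ tree F k, (∀ s t, x s t ≠ 0 → (fun i => (s i).isSome) = b ∧
      (fun i => (t i).isSome) = b') ∧
      ∀ w, x (fun i => bs (b i)) w = if w = fun i => bs (b' i) then 1 else 0 := by
  obtain ⟨s, h1, h2⟩ := h
  change ∀ i < s, b i = b' i at h1
  change b s < b' s at h2
  have hb : ∀ c, (bs c).isSome = c := by decide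
  refine ⟨ten fun i => if i < s then pj (b i) else single (bs (b i)) (bs (b' i)) 1,
    fun P P' h3 _ u v h => ?_, fun u v h => ?_, fun w => ?_⟩
  · have er : ∀ g : Matrix (Fin 2) (Fin 2) F,
        rho F k g = ten fun i : Fin k => Matrix.of (blk i g) := fun _ => rfl
    rw [er, er, ten_mul, ten_mul, ten, Matrix.of_apply, Finset.prod_ne_zero_iff] at h
    have h4 := h s (Finset.mem_univ _)
    rw [if_neg (lt_irrefl s), Bool.lt_iff.1 h2 |>.1, Bool.lt_iff.1 h2 |>.2] at h4
    refine ⟨s, fun i hi => ?_, ?_, ?_⟩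
    · have h5 := h i (Finset.mem_univ _)
      rw [if_pos hi, pj_conj _ _ h3] at h5
      by_contra hne
      exact h5 (diagonal_apply_ne _ hne)
    · obtain ⟨y, h5, -⟩ := mul_ne h4
      obtain ⟨z, h6, h7⟩ := mul_ne h5
      have h8 : z = none := by
        by_contra hz
        exact h7 (single_apply_of_row_ne (fun e => hz e.symm) _ _ _)
      revert h6
      rw [h8]
      cases u s <;> simp [blk]
    · obtain ⟨y, h5, h9⟩ := mul_ne h4
      obtain ⟨z, -, h7⟩ := mul_ne h5
      have h8 : y = some 0 := by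
        by_contra hz
        exact h7 (single_apply_of_col_ne _ _ (fun e => hz e.symm) _)
      revert h9
      rw [h8]
      cases v s <;> simp [blk]
  · rw [ten, Matrix.of_apply, Finset.prod_ne_zero_iff] at h
    have key : ∀ i, (u i).isSome = b i ∧ (v i).isSome = b' i := by
      intro i
      have h5 := h i (Finset.mem_univ _)
      split_ifs at h5 with hi
      · have h6 : u i = v i := by
          by_contra hne
          exact h5 (diagonal_apply_ne _ hne)
        rw [← h6, pj, diagonal_apply_eq] at h5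
        have h7 : (u i).isSome = b i := by
          by_contra hne
          exact h5 (if_neg hne)
        exact ⟨h7, by rw [← h6, h7, h1 i hi]⟩
      · rw [single_apply] at h5
        have h6 : bs (b i) = u i ∧ bs (b' i) = v i := by
          by_contra hne
          exact h5 (if_neg hne)
        rw [← h6.1, ← h6.2]
        exact ⟨hb _, hb _⟩
    exact ⟨funext fun i => (key i).1, funext fun i => (key i).2⟩
  · have key : ∀ i, (if i < s then pj (b i) else single (bs (b i)) (bs (b' i)) (1 : F))
        (bs (b i)) (w i) = if w i = bs (b' i) then 1 else 0 := by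
      intro i
      by_cases hi : i < s
      · rw [if_pos hi, pj, diagonal_apply, ← h1 i hi, if_pos (hb _)]
        simp only [eq_comm]
      · rw [if_neg hi, single_apply]
        simp only [true_and, eq_comm]
    rw [ten, Matrix.of_apply]
    simp only [key]
    rw [Finset.prod_ite_zero]
    simp [funext_iff]

theorem exists_group' [Fintype F] (hp : (2 ^ (k + 1) - 1).Prime)
    (hc : Fintype.card F = 2 ^ (k + 1)) :
    ∃ (G : Type) (_ : Group G) (_ : Finite G),
      (∀ g : G, 2 ^ (k + 1) - 1 ∣ orderOf g → orderOf g = 2 ^ (k + 1) - 1) ∧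
      ∃ (N : Subgroup G) (_ : N.Normal), IsPGroup 2 N ∧
        Nonempty (G ⧸ N ≃* SpecialLinearGroup (Fin 2) F) ∧
        2 ^ k - 1 ≤ Group.nilpotencyClass N := by
  have h0 : 0 < 2 ^ k := by positivity
  have hp2 : 2 ^ (k + 1) - 1 ≠ 2 := by rw [pow_succ]; omega
  have hc' : Fintype.card F = 2 ^ (k + 1) - 1 + 1 := by rw [hc, pow_succ]; omega
  refine exists_sub (tree F k) tree_up ((rho F k).comp io) (fun q n hn => ?_) hp hp2
    (sl_cp hp hp2 hc') (fun q hq n hn h => ?_)
    (subG_class _ _ (fun j i => bs (ofLex (lexE k ⟨j % 2 ^ k, Nat.mod_lt _ h0⟩) i)) fun j hj => ?_)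
  · exact tree_conj hn (by rw [← map_mul, mul_inv_cancel, map_one])
      (by rw [← map_mul, inv_mul_cancel, map_one])
  · obtain ⟨a, P, P', a0, a1, h1, h2, h3⟩ := sl_diag hp hp2 hc' q hq
    change rho F k (io q) * n = n * rho F k (io q) at h
    have r1 : rho F k P * rho F k P' = 1 := by rw [← map_mul, h1, map_one]
    have ho : orderOf a = 2 ^ (k + 1) - 1 := by
      have := Fact.mk hp
      refine orderOf_eq_prime ?_ fun h => a1 (by rw [h, inv_one])
      have h5 := FiniteField.pow_card_sub_one_eq_one _ a0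
      rwa [hc] at h5
    have h4 := diag_free' a0 ho (hn P' P h2 h1) (by
      rw [← h3, map_mul, map_mul]
      calc _ = rho F k P' * rho F k (io q) * (rho F k P * rho F k P') * n * rho F k P := by
            simp only [Matrix.mul_assoc]
        _ = rho F k P' * (rho F k (io q) * n) * rho F k P := by
            rw [r1]; simp only [mul_one, mul_assoc]
        _ = rho F k P' * n * (rho F k P * rho F k P') * rho F k (io q) * rho F k P := by
            rw [h, r1]; simp only [mul_one, mul_assoc]
        _ = _ := by simp only [Matrix.mul_assoc])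
    calc n = (rho F k P * rho F k P') * n * (rho F k P * rho F k P') := by
          rw [r1, one_mul, mul_one]
      _ = rho F k P * (rho F k P' * n * rho F k P) * rho F k P' := by
          simp only [Matrix.mul_assoc]
      _ = 0 := by rw [h4, mul_zero, zero_mul]
  · have e1 : j % 2 ^ k = j := Nat.mod_eq_of_lt (by omega)
    have e2 : (j + 1) % 2 ^ k = j + 1 := Nat.mod_eq_of_lt (by omega)
    obtain ⟨x, h1, h2, h3⟩ := tree_chain (F := F)
      (b := ofLex (lexE k ⟨j % 2 ^ k, Nat.mod_lt _ h0⟩))
      (b' := ofLex (lexE k ⟨(j + 1) % 2 ^ k, Nat.mod_lt _ h0⟩))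
      ((lexE k).strictMono (by rw [Fin.mk_lt_mk]; omega))
    refine ⟨x, h1, fun s t h => ?_, h3⟩
    unfold lw
    rw [(h2 s t h).1, (h2 s t h).2, toLex_ofLex, toLex_ofLex, OrderIso.symm_apply_apply,
      OrderIso.symm_apply_apply]
    exact ⟨congrArg (· + 1) e1, congrArg (· + 1) e2⟩

end Pool.Agent.Lib.MP_cb01cb_al
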